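import Mathlib

/-!
# Counting subspaces of a finite vector space

Gaussian binomials as numbers of subspaces, the number of `k`-subspaces above a given subspace,
the recursion `G(n+1,k+1)·[k+1] = [n+1]·G(n,k)`.
-/

open Module Finset
open scoped Classical

namespace Q110.QS

universe u v

/-- The number `1 + q + ⋯ + q^(m-1)`. -/
def br (q m : ℕ) : ℕ := ∑ i ∈ range m, q ^ i

/-- The number of `b`-dimensional subspaces of `K^a`. -/
noncomputable def gauss (K : Type u) [Field K] (a b : ℕ) : ℕ :=
  Nat.card {W : Submodule K (Fin a → K) // finrank K W = b}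

section
variable {K : Type u} [Field K] [Finite K] {V : Type v} [AddCommGroup V] [Module K V]
  [FiniteDimensional K V]

noncomputable instance subFintype : Fintype (Submodule K V) := by
  haveI : Finite V := Module.finite_of_finite K
  exact Fintype.ofFinite _

/-- points of `U` -/
noncomputable def pts (U : Submodule K V) : Finset (Submodule K V) :=
  univ.filter (fun P => finrank K P = 1 ∧ P ≤ U)

/-- `k`-subspaces above `U` -/
noncomputable def above (U : Submodule K V) (k : ℕ) : Finset (Submodule K V) :=
  univ.filter (fun W => finrank K W = k ∧ U ≤ W)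

lemma mem_pts {U P : Submodule K V} : P ∈ pts U ↔ finrank K P = 1 ∧ P ≤ U := by
  simp [pts]

lemma mem_above {U W : Submodule K V} {k : ℕ} : W ∈ above U k ↔ finrank K W = k ∧ U ≤ W := by
  simp [above]

lemma card_sub (V' : Type*) [AddCommGroup V'] [Module K V'] [FiniteDimensional K V'] (b : ℕ) :
    Nat.card {W : Submodule K V' // finrank K W = b} = gauss K (finrank K V') b := by
  unfold gauss
  let e : V' ≃ₗ[K] (Fin (finrank K V') → K) := (finBasis K V').equivFun
  refine Nat.card_congr ((Submodule.orderIsoMapComap e).toEquiv.subtypeEquiv ?_)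
  intro W
  have : finrank K (Submodule.map (e : V' →ₗ[K] (Fin (finrank K V') → K)) W) = finrank K W :=
    LinearEquiv.finrank_map_eq e W
  constructor
  · intro h; rw [← h]; exact this
  · intro h; rw [← h]; exact this.symm

lemma finrank_comap_mkQ (U : Submodule K V) (W : Submodule K (V ⧸ U)) :
    finrank K (W.comap U.mkQ) = finrank K W + finrank K U := by
  have h1 := LinearMap.finrank_range_add_finrank_ker (U.mkQ.domRestrict (W.comap U.mkQ))
  have h2 : LinearMap.range (U.mkQ.domRestrict (W.comap U.mkQ)) = W := by
    rw [LinearMap.range_domRestrict]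
    exact Submodule.map_comap_eq_of_surjective (Submodule.mkQ_surjective U) W
  have h3 : finrank K (LinearMap.ker (U.mkQ.domRestrict (W.comap U.mkQ))) = finrank K U := by
    have hle : U ≤ W.comap U.mkQ := by
      intro x hx
      rw [Submodule.mem_comap, Submodule.mkQ_apply, (Submodule.Quotient.mk_eq_zero U).2 hx]
      exact W.zero_mem
    have : LinearMap.ker (U.mkQ.domRestrict (W.comap U.mkQ))
        = U.comap (W.comap U.mkQ).subtype := by
      rw [LinearMap.ker_domRestrict, Submodule.ker_mkQ]
    rw [this]
    exact (Submodule.comapSubtypeEquivOfLe hle).finrank_eq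
  rw [h2, h3] at h1
  exact h1.symm

lemma card_above (U : Submodule K V) {k : ℕ} (hk : finrank K U ≤ k) :
    (above U k).card = gauss K (finrank K V - finrank K U) (k - finrank K U) := by
  have h1 : finrank K (V ⧸ U) = finrank K V - finrank K U := by
    have := Submodule.finrank_quotient_add_finrank U
    omega
  rw [← h1, ← card_sub (V ⧸ U) (k - finrank K U)]
  rw [← Fintype.card_coe, ← Nat.card_eq_fintype_card]
  refine (Nat.card_congr ?_).symm
  refine Equiv.ofBijective
    (fun W => ⟨W.1.comap U.mkQ, ?_⟩) ⟨?_, ?_⟩
  · rw [mem_above]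
    refine ⟨?_, ?_⟩
    · rw [finrank_comap_mkQ, W.2]; omega
    · intro x hx
      rw [Submodule.mem_comap, Submodule.mkQ_apply, (Submodule.Quotient.mk_eq_zero U).2 hx]
      exact W.1.zero_mem
  · intro W W' h
    have h' : W.1.comap U.mkQ = W'.1.comap U.mkQ := congrArg Subtype.val h
    apply Subtype.ext
    exact Submodule.comap_injective_of_surjective (Submodule.mkQ_surjective U) h'
  · intro W
    obtain ⟨hW1, hW2⟩ := mem_above.1 W.2
    have hcm : (W.1.map U.mkQ).comap U.mkQ = W.1 := by
      rw [Submodule.comap_map_mkQ]
      exact sup_eq_right.2 hW2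
    refine ⟨⟨W.1.map U.mkQ, ?_⟩, ?_⟩
    · have := finrank_comap_mkQ U (W.1.map U.mkQ)
      rw [hcm, hW1] at this
      omega
    · apply Subtype.ext
      exact hcm

lemma card_pts (U : Submodule K V) : (pts U).card = br (Nat.card K) (finrank K U) := by
  unfold br
  rw [← Projectivization.card_of_finrank K U rfl]
  rw [← Fintype.card_coe, ← Nat.card_eq_fintype_card]
  rw [Nat.card_congr (Projectivization.equivSubmodule K U)]
  refine (Nat.card_congr ?_).symm
  refine Equiv.ofBijective
    (fun W => ⟨W.1.map U.subtype, ?_⟩) ⟨?_, ?_⟩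
  · rw [mem_pts]
    refine ⟨?_, Submodule.map_subtype_le U W.1⟩
    rw [Submodule.finrank_map_subtype_eq]
    exact W.2
  · intro W W' h
    have h' : W.1.map U.subtype = W'.1.map U.subtype := congrArg Subtype.val h
    apply Subtype.ext
    exact Submodule.map_injective_of_injective (Submodule.injective_subtype U) h'
  · intro P
    obtain ⟨hP1, hP2⟩ := mem_pts.1 P.2
    have hcm : (P.1.comap U.subtype).map U.subtype = P.1 := by
      rw [Submodule.map_comap_subtype]
      exact inf_eq_right.2 hP2
    refine ⟨⟨P.1.comap U.subtype, ?_⟩, ?_⟩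
    · rw [← Submodule.finrank_map_subtype_eq, hcm]
      exact hP1
    · apply Subtype.ext
      exact hcm

end

lemma card_pts_top_fin (K : Type u) [Field K] [Finite K] (n : ℕ) :
    (pts (⊤ : Submodule K (Fin n → K))).card = br (Nat.card K) n := by
  rw [card_pts, finrank_top, Module.finrank_fin_fun]

/-- double counting of incident pairs (point, subspace) -/
lemma gauss_mul (K : Type u) [Field K] [Finite K] (n k : ℕ) :
    gauss K (n + 1) (k + 1) * br (Nat.card K) (k + 1) = br (Nat.card K) (n + 1) * gauss K n k := by
  let V := Fin (n + 1) → K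
  let S : Finset (Submodule K V) := univ.filter (fun W => finrank K W = k + 1)
  have hS : S.card = gauss K (n + 1) (k + 1) := by
    have := card_above (⊥ : Submodule K V) (k := k + 1) (by simp)
    rw [finrank_bot, Nat.sub_zero, Nat.sub_zero, Module.finrank_fin_fun] at this
    rw [← this]
    congr 1
    ext W
    simp [S, mem_above]
  have h := Finset.sum_card_bipartiteAbove_eq_sum_card_bipartiteBelow
    (s := pts (⊤ : Submodule K V)) (t := S) (fun P W => P ≤ W)
  have h1 : ∀ P ∈ pts (⊤ : Submodule K V), (bipartiteAbove (fun P W => P ≤ W) S P).card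
      = gauss K n k := by
    intro P hP
    have hP1 := (mem_pts.1 hP).1
    have := card_above P (k := k + 1) (by omega)
    rw [hP1, Module.finrank_fin_fun] at this
    simp only [Nat.add_sub_cancel] at this
    rw [← this]
    congr 1
    ext W
    simp [S, mem_above, bipartiteAbove]
  have h2 : ∀ W ∈ S, (bipartiteBelow (fun P W => P ≤ W) (pts (⊤ : Submodule K V)) W).card
      = br (Nat.card K) (k + 1) := by
    intro W hW
    have hW1 : finrank K W = k + 1 := by simpa [S] using hW
    rw [← hW1, ← card_pts]
    congr 1
    ext P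
    simp [mem_pts, bipartiteBelow]
  rw [sum_congr rfl h1, sum_congr rfl h2, sum_const, sum_const, smul_eq_mul, smul_eq_mul,
    hS, card_pts_top_fin] at h
  exact h.symm

end Q110.QS
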