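import Pool.Agent.Q110.QS.Upper

/-!
# High degree points lie in a `(k+1)`-dimensional subspace
-/

open Module Finset
open scoped Classical

namespace Q110.QS

universe u v

section family
variable {K : Type u} [Field K] [Finite K] {V : Type v} [AddCommGroup V] [Module K V]
  [FiniteDimensional K V]

omit [Finite K] in
lemma point_eq {P Q : Submodule K V} (hP : finrank K P = 1) (hQ : finrank K Q = 1)
    (h : P ≤ Q) : P = Q :=
  Submodule.eq_of_le_of_finrank_le h (by omega)

omit [Finite K] in
lemma finrank_pos_of_ne_bot {W : Submodule K V} (h : W ≠ ⊥) : 1 ≤ finrank K W := by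
  rw [Nat.one_le_iff_ne_zero]
  intro h0
  exact h (Submodule.finrank_eq_zero.1 h0)

omit [Finite K] in
lemma ne_bot_of_finrank_pos {W : Submodule K V} (h : 1 ≤ finrank K W) : W ≠ ⊥ := by
  rintro rfl
  rw [finrank_bot] at h
  omega

omit [Finite K] in
lemma point_le_of_inf_ne {P W : Submodule K V} (hP : finrank K P = 1) (h : W ⊓ P ≠ ⊥) :
    P ≤ W := by
  by_contra hn
  exact h (inf_point hP hn)

omit [Finite K] in
lemma line_eq {P Q l : Submodule K V} (hP : finrank K P = 1) (hQ : finrank K Q = 1)
    (hl : finrank K l = 2) (hPl : P ≤ l) (hQl : Q ≤ l) (hne : P ≠ Q) : P ⊔ Q = l := by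
  have h1 : ¬ Q ≤ P := fun h => hne (point_eq hQ hP h).symm
  have h2 := finrank_sup_point hQ h1
  exact Submodule.eq_of_le_of_finrank_le (sup_le hPl hQl) (by omega)

omit [Finite K] in
/-- Pairwise meeting lines are concurrent or coplanar. -/
lemma concurrent_or_coplanar (L : Set (Submodule K V)) (hne : L.Nonempty)
    (h2 : ∀ l ∈ L, finrank K l = 2) (hp : ∀ l ∈ L, ∀ l' ∈ L, l ⊓ l' ≠ ⊥) :
    (∃ P : Submodule K V, finrank K P = 1 ∧ ∀ l ∈ L, P ≤ l) ∨
    (∃ π : Submodule K V, finrank K π = 3 ∧ ∀ l ∈ L, l ≤ π) := by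
  obtain ⟨l1, hl1⟩ := hne
  by_cases hall : ∀ l ∈ L, l = l1
  · left
    obtain ⟨P, hP, hP1⟩ := exists_point (ne_bot_of_finrank_pos (by rw [h2 l1 hl1]; omega))
    exact ⟨P, hP, fun l hl => by rw [hall l hl]; exact hP1⟩
  push Not at hall
  obtain ⟨l2, hl2, h12⟩ := hall
  have hr1 := h2 l1 hl1
  have hr2 := h2 l2 hl2
  have hP0 : finrank K (l1 ⊓ l2 : Submodule K V) = 1 := by
    have ha := finrank_pos_of_ne_bot (hp l1 hl1 l2 hl2)
    have hb : finrank K (l1 ⊓ l2 : Submodule K V) ≠ 2 := by
      intro hb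
      have e1 : l1 ⊓ l2 = l1 := Submodule.eq_of_le_of_finrank_le inf_le_left (by omega)
      have e2 : l1 ⊓ l2 = l2 := Submodule.eq_of_le_of_finrank_le inf_le_right (by omega)
      exact h12 (e2.symm.trans e1)
    have hc : finrank K (l1 ⊓ l2 : Submodule K V) ≤ finrank K l1 :=
      Submodule.finrank_mono inf_le_left
    omega
  have hpi : finrank K (l1 ⊔ l2 : Submodule K V) = 3 := by
    have := Submodule.finrank_sup_add_finrank_inf_eq l1 l2
    omega
  by_cases hcon : ∀ l ∈ L, l1 ⊓ l2 ≤ l
  · exact Or.inl ⟨_, hP0, hcon⟩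
  push Not at hcon
  obtain ⟨l3, hl3, h3⟩ := hcon
  right
  refine ⟨l1 ⊔ l2, hpi, ?_⟩
  have hr3 := h2 l3 hl3
  have hl3pi : l3 ≤ l1 ⊔ l2 := by
    obtain ⟨A, hA, hA1⟩ := exists_point (hp l3 hl3 l1 hl1)
    obtain ⟨B, hB, hB1⟩ := exists_point (hp l3 hl3 l2 hl2)
    have hAB : A ≠ B := by
      intro h
      subst h
      have : A ≤ l1 ⊓ l2 := le_inf (hA1.trans inf_le_right) (hB1.trans inf_le_right)
      have := point_eq hA hP0 this
      rw [← this] at h3
      exact h3 (hA1.trans inf_le_left)
    rw [← line_eq hA hB hr3 (hA1.trans inf_le_left) (hB1.trans inf_le_left) hAB]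
    exact sup_le ((hA1.trans inf_le_right).trans le_sup_left)
      ((hB1.trans inf_le_right).trans le_sup_right)
  intro l hl
  by_contra hn
  have hr := h2 l hl
  have hle : finrank K (l ⊓ (l1 ⊔ l2) : Submodule K V) ≤ 1 := by
    have hc : finrank K (l ⊓ (l1 ⊔ l2) : Submodule K V) ≤ finrank K l :=
      Submodule.finrank_mono inf_le_left
    by_contra hcon
    have e1 : l ⊓ (l1 ⊔ l2) = l := Submodule.eq_of_le_of_finrank_le inf_le_left (by omega)
    exact hn (inf_eq_left.1 e1)
  obtain ⟨A1, hA1, hA1'⟩ := exists_point (hp l hl l1 hl1)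
  obtain ⟨A2, hA2, hA2'⟩ := exists_point (hp l hl l2 hl2)
  obtain ⟨A3, hA3, hA3'⟩ := exists_point (hp l hl l3 hl3)
  have e1 : A1 = l ⊓ (l1 ⊔ l2) := Submodule.eq_of_le_of_finrank_le
    (le_inf (hA1'.trans inf_le_left) ((hA1'.trans inf_le_right).trans le_sup_left)) (by omega)
  have e2 : A2 = l ⊓ (l1 ⊔ l2) := Submodule.eq_of_le_of_finrank_le
    (le_inf (hA2'.trans inf_le_left) ((hA2'.trans inf_le_right).trans le_sup_right)) (by omega)
  have e3 : A3 = l ⊓ (l1 ⊔ l2) := Submodule.eq_of_le_of_finrank_le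
    (le_inf (hA3'.trans inf_le_left) ((hA3'.trans inf_le_right).trans hl3pi)) (by omega)
  have h12' : A1 ≤ l1 ⊓ l2 := by
    refine le_inf (hA1'.trans inf_le_right) ?_
    rw [e1, ← e2]
    exact hA2'.trans inf_le_right
  have hA1P := point_eq hA1 hP0 h12'
  apply h3
  rw [← hA1P, e1, ← e3]
  exact hA3'.trans inf_le_right

lemma deg_mono_of {F : Finset (Submodule K V)} {U U' : Submodule K V}
    (h : ∀ W ∈ F, U ≤ W → U' ≤ W) : deg F U ≤ deg F U' := by
  unfold deg
  refine card_le_card ?_
  intro W hW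
  rw [mem_filter] at hW ⊢
  exact ⟨hW.1, h W hW.1 hW.2⟩

lemma deg_nontrans {F : Finset (Submodule K V)} {k u : ℕ} (hF : ∀ W ∈ F, finrank K W = k)
    (hI : ∀ W ∈ F, ∀ W' ∈ F, W ⊓ W' ≠ ⊥) {U : Submodule K V} (hU : finrank K U = u)
    (huk : u < k) (hnt : ¬ Trans F U) :
    deg F U ≤ br (Nat.card K) k * gauss K (finrank K V - (u + 1)) (k - (u + 1)) := by
  unfold Trans at hnt
  push Not at hnt
  obtain ⟨W0, hW0, hWU⟩ := hnt
  refine (cover (F := F) (U := U) (T := W0) (fun W hW _ => hI W hW W0 hW0)).trans ?_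
  have hb : ∀ P ∈ pts W0, deg F (U ⊔ P)
      ≤ gauss K (finrank K V - (u + 1)) (k - (u + 1)) := by
    intro P hP
    obtain ⟨hP1, hP2⟩ := mem_pts.1 hP
    have hn : ¬ P ≤ U := by
      intro hPU
      have : P ≤ ⊥ := by
        rw [← hWU]; exact le_inf hP2 hPU
      rw [le_bot_iff] at this
      rw [this, finrank_bot] at hP1
      omega
    have hr := finrank_sup_point hP1 hn
    have := deg_le_above hF (U := U ⊔ P) (by omega)
    rwa [hr, hU] at this
  refine (sum_le_card_nsmul _ _ _ hb).trans ?_
  rw [card_pts, hF W0 hW0, smul_eq_mul]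

/-- **All points of high degree lie in a common subspace of dimension at most `k+1`.** -/
theorem high_in {F : Finset (Submodule K V)} {k M : ℕ} (hk : 2 ≤ k)
    (hn : 2 * k + M ≤ finrank K V)
    (hM : Nat.card K ^ 2 + Nat.card K + 1 ≤ (Nat.card K - 1) * Nat.card K ^ M)
    (hF : ∀ W ∈ F, finrank K W = k)
    (hI : ∀ W ∈ F, ∀ W' ∈ F, W ⊓ W' ≠ ⊥) :
    ∃ T : Submodule K V, finrank K T ≤ k + 1 ∧ ∀ P : Submodule K V, finrank K P = 1 →
      gauss K (finrank K V - 2) (k - 2) < deg F P → P ≤ T := by
  set q := Nat.card K with hqdef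
  set n := finrank K V with hndef
  have hq : 2 ≤ q := two_le_card K
  rcases F.eq_empty_or_nonempty with rfl | ⟨W1, hW1⟩
  · refine ⟨⊥, by simp, ?_⟩
    intro P _ h
    simp [deg] at h
  -- minimal transversal
  have htop : ∃ t, ∃ T, Trans F T ∧ finrank K T = t := by
    refine ⟨_, ⊤, ?_, rfl⟩
    intro W hW
    rw [inf_top_eq]
    exact ne_bot_of_finrank_pos (by rw [hF W hW]; omega)
  obtain ⟨T0, hT0, hT0r⟩ := Nat.find_spec htop
  have hmin : ∀ T, Trans F T → finrank K T0 ≤ finrank K T := by
    intro T hT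
    rw [hT0r]
    exact Nat.find_min' htop ⟨T, hT, rfl⟩
  obtain ⟨t, ht⟩ : ∃ t, t = finrank K T0 := ⟨_, rfl⟩
  rw [← ht] at hmin
  have htk : t ≤ k := by
    have := hmin W1 (fun W hW => hI W hW W1 hW1)
    rwa [hF W1 hW1] at this
  have ht1 : 1 ≤ t := by
    rw [Nat.one_le_iff_ne_zero]
    intro h0
    rw [h0] at ht
    have : T0 = ⊥ := Submodule.finrank_eq_zero.1 ht.symm
    have h := hT0 W1 hW1
    rw [this, inf_bot_eq] at h
    exact h rfl
  -- case analysis
  rcases (by omega : t = 1 ∨ t = 2 ∨ 3 ≤ t) with h1 | h2 | h3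
  · -- t = 1
    refine ⟨T0, by omega, ?_⟩
    intro P hP hh
    by_contra hn'
    have hT0P : ∀ W ∈ F, T0 ≤ W := fun W hW => point_le_of_inf_ne (by omega) (hT0 W hW)
    have hle : deg F P ≤ deg F (T0 ⊔ P) :=
      deg_mono_of (fun W hW hPW => sup_le (hT0P W hW) hPW)
    have hr := finrank_sup_point hP hn'
    have := deg_le_above hF (U := T0 ⊔ P) (by omega)
    rw [hr, ← ht, h1] at this
    have h9 : gauss K (finrank K V - (1 + 1)) (k - (1 + 1)) = gauss K (n - 2) (k - 2) := rfl
    rw [h9] at this
    omega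
  · -- t = 2
    subst h2
    rcases (by omega : k = 2 ∨ 3 ≤ k) with hk2 | hk3
    · -- k = 2
      subst hk2
      rcases concurrent_or_coplanar (F : Set (Submodule K V)) ⟨W1, by simpa using hW1⟩
        (by intro l hl; exact hF l (by simpa using hl))
        (by intro l hl l' hl'; exact hI l (by simpa using hl) l' (by simpa using hl')) with
        ⟨P0, hP0, hcon⟩ | ⟨π, hπ, hcop⟩
      · exfalso
        have : Trans F P0 := by
          intro W hW
          rw [inf_eq_right.2 (hcon W (by simpa using hW))]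
          exact ne_bot_of_finrank_pos (by omega)
        have := hmin P0 this
        omega
      · refine ⟨π, by omega, ?_⟩
        intro P hP hh
        have : 0 < deg F P := by omega
        unfold deg at this
        obtain ⟨W, hW⟩ := card_pos.1 this
        rw [mem_filter] at hW
        exact hW.2.trans (hcop W (by simpa using hW.1))
    · -- k ≥ 3
      have hstep : ((q - 1) * q ^ M) * br q k * gauss K (n - 3) (k - 3) ≤ gauss K (n - 2) (k - 2) :=
        gauss_step K (M := M) (k := k) (i := 2) (n := n) (by omega) hn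
      have hbr2 : br q 2 = q + 1 := by simp [br, sum_range_succ]; ring
      have hline : ∀ P : Submodule K V, finrank K P = 1 →
          gauss K (n - 2) (k - 2) < deg F P →
          ∃ l : Submodule K V, finrank K l = 2 ∧ Trans F l ∧ P ≤ l := by
        intro P hP hh
        by_cases hPT : P ≤ T0
        · exact ⟨T0, ht.symm, hT0, hPT⟩
        by_contra hno
        push Not at hno
        have hb : ∀ Q ∈ pts T0, deg F (P ⊔ Q) ≤ br q k * gauss K (n - 3) (k - 3) := by
          intro Q hQ
          obtain ⟨hQ1, hQ2⟩ := mem_pts.1 hQ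
          have hQP : ¬ Q ≤ P := by
            intro h
            apply hPT
            rw [← point_eq hQ1 hP h]
            exact hQ2
          have hr := finrank_sup_point hQ1 hQP
          rw [hP] at hr
          exact deg_nontrans hF hI hr (by omega) (fun h => hno _ hr h le_sup_left)
        have hc := (cover (F := F) (U := P) (T := T0) (fun W hW _ => hT0 W hW)).trans
          (sum_le_card_nsmul _ _ _ hb)
        rw [card_pts, ← ht, ← hqdef, hbr2, smul_eq_mul] at hc
        have : (q + 1) * (br q k * gauss K (n - 3) (k - 3))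
            ≤ ((q - 1) * q ^ M) * (br q k * gauss K (n - 3) (k - 3)) :=
          Nat.mul_le_mul_right _ (by nlinarith)
        rw [← mul_assoc ((q - 1) * q ^ M)] at this
        omega
      by_cases hskew : ∃ l1 l2 : Submodule K V, finrank K l1 = 2 ∧ Trans F l1 ∧
          finrank K l2 = 2 ∧ Trans F l2 ∧ l1 ⊓ l2 = ⊥
      · obtain ⟨l1, l2, hr1, hT1, hr2, hT2, h12⟩ := hskew
        have hr12 := Submodule.finrank_sup_add_finrank_inf_eq l1 l2
        rw [h12, finrank_bot] at hr12
        refine ⟨l1 ⊔ l2, by omega, ?_⟩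
        intro P hP hh
        by_contra hPn
        have hb : ∀ Q ∈ pts l1, deg F (P ⊔ Q) ≤ (q + 1) * gauss K (n - 3) (k - 3) := by
          intro Q hQ
          obtain ⟨hQ1, hQ2⟩ := mem_pts.1 hQ
          have hQP : ¬ Q ≤ P := by
            intro h
            apply hPn
            rw [← point_eq hQ1 hP h]
            exact hQ2.trans le_sup_left
          have hr := finrank_sup_point hQ1 hQP
          rw [hP] at hr
          have hb2 : ∀ R ∈ pts l2, deg F (P ⊔ Q ⊔ R) ≤ gauss K (n - 3) (k - 3) := by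
            intro R hR
            obtain ⟨hR1, hR2⟩ := mem_pts.1 hR
            have hRPQ : ¬ R ≤ P ⊔ Q := by
              intro h
              have hRQ : R ≠ Q := by
                rintro rfl
                have : R ≤ ⊥ := by rw [← h12]; exact le_inf hQ2 hR2
                rw [le_bot_iff] at this
                rw [this, finrank_bot] at hR1
                omega
              have hQR : Q ⊔ R = P ⊔ Q := line_eq hQ1 hR1 hr le_sup_right h hRQ.symm
              apply hPn
              have h5 : P ≤ Q ⊔ R := by rw [hQR]; exact le_sup_left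
              exact h5.trans (sup_le (hQ2.trans le_sup_left) (hR2.trans le_sup_right))
            have hr3 := finrank_sup_point hR1 hRPQ
            have := deg_le_above hF (U := P ⊔ Q ⊔ R) (by omega)
            rwa [hr3, hr] at this
          have hc := (cover (F := F) (U := P ⊔ Q) (T := l2) (fun W hW _ => hT2 W hW)).trans
            (sum_le_card_nsmul _ _ _ hb2)
          rwa [card_pts, hr2, ← hqdef, hbr2, smul_eq_mul] at hc
        have hc := (cover (F := F) (U := P) (T := l1) (fun W hW _ => hT1 W hW)).trans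
          (sum_le_card_nsmul _ _ _ hb)
        rw [card_pts, hr1, ← hqdef, hbr2, smul_eq_mul] at hc
        have hbk : q + 1 ≤ br q k := by
          rw [← hbr2]; exact br_mono (by omega)
        have h6 : (q + 1) * (q + 1) ≤ ((q - 1) * q ^ M) * br q k :=
          Nat.mul_le_mul (by nlinarith) hbk
        have : (q + 1) * (q + 1) * gauss K (n - 3) (k - 3)
            ≤ ((q - 1) * q ^ M) * br q k * gauss K (n - 3) (k - 3) :=
          Nat.mul_le_mul_right _ h6
        rw [mul_assoc (q + 1)] at this
        omega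
      · push Not at hskew
        rcases concurrent_or_coplanar {l : Submodule K V | finrank K l = 2 ∧ Trans F l}
          ⟨T0, ht.symm, hT0⟩ (fun l hl => hl.1)
          (fun l hl l' hl' => hskew l l' hl.1 hl.2 hl'.1 hl'.2) with
          ⟨P0, hP0, hcon⟩ | ⟨π, hπ, hcop⟩
        · have hnt : ¬ Trans F P0 := by
            intro h
            have := hmin P0 h
            omega
          unfold Trans at hnt
          push Not at hnt
          obtain ⟨W0, hW0, hWP⟩ := hnt
          have hPW : ¬ P0 ≤ W0 := by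
            intro h
            rw [inf_eq_right.2 h] at hWP
            rw [hWP, finrank_bot] at hP0
            omega
          refine ⟨W0 ⊔ P0, ?_, ?_⟩
          · rw [finrank_sup_point hP0 hPW, hF W0 hW0]
          · intro P hP hh
            obtain ⟨l, hl2, hlT, hPl⟩ := hline P hP hh
            obtain ⟨R, hR, hR'⟩ := exists_point (hlT W0 hW0)
            have hne : P0 ≠ R := by
              rintro rfl
              exact hPW (hR'.trans inf_le_left)
            have := line_eq hP0 hR hl2 (hcon l ⟨hl2, hlT⟩) (hR'.trans inf_le_right) hne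
            rw [← this] at hPl
            exact hPl.trans (sup_le le_sup_right ((hR'.trans inf_le_left).trans le_sup_left))
        · refine ⟨π, by omega, ?_⟩
          intro P hP hh
          obtain ⟨l, hl2, hlT, hPl⟩ := hline P hP hh
          exact hPl.trans (hcop l ⟨hl2, hlT⟩)
  · -- t ≥ 3
    refine ⟨T0, by omega, ?_⟩
    intro P hP hh
    by_contra hPn
    have hb : ∀ Q ∈ pts T0, deg F (P ⊔ Q) ≤ br q k ^ (t - 2) * gauss K (n - t) (k - t) := by
      intro Q hQ
      obtain ⟨hQ1, hQ2⟩ := mem_pts.1 hQ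
      have hQP : ¬ Q ≤ P := by
        intro h
        apply hPn
        rw [← point_eq hQ1 hP h]
        exact hQ2
      have hr := finrank_sup_point hQ1 hQP
      rw [hP] at hr
      exact Dbound hF hI hmin htk (t - 2) (by omega) _ (by omega)
    have hc := (cover (F := F) (U := P) (T := T0) (fun W hW _ => hT0 W hW)).trans
      (sum_le_card_nsmul _ _ _ hb)
    rw [card_pts, ← ht, ← hqdef, smul_eq_mul] at hc
    obtain ⟨j, rfl⟩ : ∃ j, t = j + 3 := ⟨t - 3, by omega⟩
    have h6 := br_le_pow (q := q) hM j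
    have h7 := gauss_iter K (M := M) (k := k) (n := n) hn (j + 1) (by omega)
    rw [show j + 3 - 2 = j + 1 by omega] at hc
    rw [show j + 1 + 2 = j + 3 by ring, ← hqdef, mul_pow] at h7
    have h8 : br q (j + 3) * (br q k ^ (j + 1) * gauss K (n - (j + 3)) (k - (j + 3)))
        ≤ ((q - 1) * q ^ M) ^ (j + 1) *
          (br q k ^ (j + 1) * gauss K (n - (j + 3)) (k - (j + 3))) :=
      Nat.mul_le_mul_right _ h6
    rw [← mul_assoc (((q - 1) * q ^ M) ^ (j + 1))] at h8
    omega

end family

end Q110.QS
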