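import Pool.Agent.Q110.QS.HighIn

/-!
# The Hilton-Milner family of `k`-subspaces: the lower bound
-/

open Module Finset
open scoped Classical

namespace Q110.QS

universe u v

section family
variable {K : Type u} [Field K] [Finite K] {V : Type v} [AddCommGroup V] [Module K V]
  [FiniteDimensional K V]

omit [Finite K] in
/-- In a `(k+1)`-space `E` there is a `k`-subspace through `P` avoiding `P'`. -/
lemma exists_hyper {E P P' : Submodule K V} {k : ℕ} (hE : finrank K E = k + 1)
    (hP : finrank K P = 1) (hP' : finrank K P' = 1) (hPE : P ≤ E) (hP'E : P' ≤ E)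
    (hne : P ≠ P') :
    ∃ W : Submodule K V, finrank K W = k ∧ P ≤ W ∧ W ≤ E ∧ ¬ P' ≤ W := by
  have hn : ¬ P' ≤ P := fun h => hne (point_eq hP' hP h).symm
  have hd : Disjoint P P' := by
    rw [disjoint_iff]
    exact inf_point hP' hn
  obtain ⟨C, hPC, hC'⟩ := hd.exists_isCompl
  have hC : IsCompl P' C := hC'.symm
  have hCr : finrank K P' + finrank K C = finrank K V := Submodule.finrank_add_eq_of_isCompl hC
  have hnC : ¬ P' ≤ C := by
    intro h
    have h1 := hC.inf_eq_bot
    rw [inf_eq_left.2 h] at h1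
    rw [h1, finrank_bot] at hP'
    omega
  refine ⟨C ⊓ E, ?_, le_inf hPC hPE, inf_le_right, fun h => hnC (h.trans inf_le_left)⟩
  have h1 := Submodule.finrank_sup_add_finrank_inf_eq C E
  have h2 : C ⊔ E = ⊤ := by
    have := hC.sup_eq_top
    rw [sup_comm] at this
    rw [eq_top_iff, ← this]
    exact sup_le_sup_left hP'E C
  rw [h2, finrank_top] at h1
  omega

/-- The Hilton-Milner family. -/
noncomputable def hmFam (k : ℕ) (P0 U E : Submodule K V) : Finset (Submodule K V) :=
  univ.filter (fun W => finrank K W = k ∧ ((P0 ≤ W ∧ W ⊓ U ≠ ⊥) ∨ W ≤ E))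

omit [Finite K] in
lemma inf_ne_bot_of_dim {A B E : Submodule K V} (hA : A ≤ E) (hB : B ≤ E)
    (h : finrank K E < finrank K A + finrank K B) : A ⊓ B ≠ ⊥ := by
  intro h0
  have h1 := Submodule.finrank_sup_add_finrank_inf_eq A B
  rw [h0, finrank_bot] at h1
  have h2 : finrank K (A ⊔ B : Submodule K V) ≤ finrank K E :=
    Submodule.finrank_mono (sup_le hA hB)
  omega

omit [Finite K] in
/-- Subspaces of every intermediate dimension. -/
lemma exists_between {A B : Submodule K V} (hAB : A ≤ B) (d : ℕ) :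
    finrank K A + d ≤ finrank K B →
    ∃ W : Submodule K V, A ≤ W ∧ W ≤ B ∧ finrank K W = finrank K A + d := by
  induction d with
  | zero => intro _; exact ⟨A, le_rfl, hAB, rfl⟩
  | succ d ih =>
    intro h
    obtain ⟨W, hAW, hWB, hW⟩ := ih (by omega)
    have hnot : ¬ B ≤ W := by
      intro hBW
      have := Submodule.finrank_mono (R := K) hBW
      omega
    obtain ⟨x, hxB, hxW⟩ := SetLike.not_le_iff_exists.1 hnot
    have hx0 : x ≠ 0 := by
      rintro rfl
      exact hxW W.zero_mem
    have hP : finrank K (K ∙ x) = 1 := finrank_span_singleton hx0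
    have hPW : ¬ (K ∙ x) ≤ W := by
      rw [Submodule.span_singleton_le_iff_mem]
      exact hxW
    refine ⟨W ⊔ (K ∙ x), hAW.trans le_sup_left,
      sup_le hWB ((Submodule.span_singleton_le_iff_mem x B).2 hxB), ?_⟩
    rw [finrank_sup_point hP hPW]
    omega

/-- **Lower bound.** -/
theorem hm_exists {k : ℕ} (hk : 2 ≤ k) (hn : k + 1 ≤ finrank K V) :
    ∃ F : Finset (Submodule K V), (∀ W ∈ F, finrank K W = k) ∧
      (∀ W ∈ F, ∀ W' ∈ F, W ⊓ W' ≠ ⊥) ∧
      ∃ E : Submodule K V, finrank K E = k + 1 ∧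
        ∀ P : Submodule K V, finrank K P = 1 → P ≤ E →
          gauss K (finrank K V - 2) (k - 2) < deg F P := by
  obtain ⟨E, -, -, hE⟩ := exists_between (bot_le : (⊥ : Submodule K V) ≤ ⊤) (k + 1)
    (by rw [finrank_bot, finrank_top]; omega)
  rw [finrank_bot, zero_add] at hE
  obtain ⟨U, -, hUE, hU⟩ := exists_between (bot_le : (⊥ : Submodule K V) ≤ E) k
    (by rw [finrank_bot]; omega)
  rw [finrank_bot, zero_add] at hU
  obtain ⟨x, hxE, hxU⟩ := SetLike.not_le_iff_exists.1 (show ¬ E ≤ U by
    intro h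
    have := Submodule.finrank_mono (R := K) h
    omega)
  have hx0 : x ≠ 0 := by
    rintro rfl
    exact hxU U.zero_mem
  set P0 : Submodule K V := K ∙ x with hP0def
  have hP0 : finrank K P0 = 1 := finrank_span_singleton hx0
  have hP0E : P0 ≤ E := (Submodule.span_singleton_le_iff_mem x E).2 hxE
  have hP0U : ¬ P0 ≤ U := by
    rw [hP0def, Submodule.span_singleton_le_iff_mem]
    exact hxU
  refine ⟨hmFam k P0 U E, ?_, ?_, E, hE, ?_⟩
  · intro W hW
    simp only [hmFam, mem_filter] at hW
    exact hW.2.1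
  · -- intersecting
    have key : ∀ W W' : Submodule K V, P0 ≤ W → W ⊓ U ≠ ⊥ → W' ≤ E → finrank K W' = k →
        W ⊓ W' ≠ ⊥ := by
      intro W W' h1 h2 h3 h4
      obtain ⟨Q, hQ, hQ'⟩ := exists_point h2
      have hQP : ¬ Q ≤ P0 := by
        intro h
        have h5 := point_eq hQ hP0 h
        rw [h5] at hQ'
        exact hP0U (hQ'.trans inf_le_right)
      have hr := finrank_sup_point hQ hQP
      have h6 : (P0 ⊔ Q) ⊓ W' ≠ ⊥ :=
        inf_ne_bot_of_dim (sup_le hP0E ((hQ'.trans inf_le_right).trans hUE)) h3 (by omega)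
      intro h7
      apply h6
      rw [eq_bot_iff, ← h7]
      exact inf_le_inf_right _ (sup_le h1 (hQ'.trans inf_le_left))
    intro W hW W' hW'
    simp only [hmFam, mem_filter, mem_univ, true_and] at hW hW'
    obtain ⟨h1, h2⟩ := hW
    obtain ⟨h1', h2'⟩ := hW'
    rcases h2 with ⟨ha, hb⟩ | hE1
    · rcases h2' with ⟨ha', hb'⟩ | hE2
      · intro h0
        have : P0 ≤ W ⊓ W' := le_inf ha ha'
        rw [h0, le_bot_iff] at this
        rw [this, finrank_bot] at hP0
        omega
      · exact key W W' ha hb hE2 h1'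
    · rcases h2' with ⟨ha', hb'⟩ | hE2
      · rw [inf_comm]
        exact key W' W ha' hb' hE1 h1
      · exact inf_ne_bot_of_dim hE1 hE2 (by omega)
  · -- degrees
    intro P hP hPE
    -- the partner point
    obtain ⟨P', hP', hP'E, hne, hP0L, hLU⟩ : ∃ P' : Submodule K V, finrank K P' = 1 ∧ P' ≤ E ∧
        P ≠ P' ∧ P0 ≤ P ⊔ P' ∧ (P ⊔ P') ⊓ U ≠ ⊥ := by
      by_cases hPP : P = P0
      · obtain ⟨Q, hQ, hQU⟩ := exists_point (ne_bot_of_finrank_pos (W := U) (by omega))
        refine ⟨Q, hQ, hQU.trans hUE, ?_, ?_, ?_⟩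
        · rw [hPP]
          rintro rfl
          exact hP0U hQU
        · rw [hPP]; exact le_sup_left
        · intro h0
          have : Q ≤ (P ⊔ Q) ⊓ U := le_inf le_sup_right hQU
          rw [h0, le_bot_iff] at this
          rw [this, finrank_bot] at hQ
          omega
      · refine ⟨P0, hP0, hP0E, hPP, le_sup_right, ?_⟩
        have hn' : ¬ P0 ≤ P := fun h => hPP (point_eq hP0 hP h).symm
        have hr := finrank_sup_point hP0 hn'
        exact inf_ne_bot_of_dim (sup_le hPE hP0E) hUE (by omega)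
    have hn' : ¬ P' ≤ P := fun h => hne (point_eq hP' hP h).symm
    have hr := finrank_sup_point hP' hn'
    rw [hP] at hr
    obtain ⟨W1, hW1, hPW1, hW1E, hP'W1⟩ := exists_hyper hE hP hP' hPE hP'E hne
    have hcard : (above (P ⊔ P') k).card = gauss K (finrank K V - 2) (k - 2) := by
      have h := card_above (P ⊔ P') (k := k) (by omega)
      rwa [hr] at h
    have hW1not : W1 ∉ above (P ⊔ P') k := by
      intro h
      exact hP'W1 (le_sup_right.trans (mem_above.1 h).2)
    have hsub : insert W1 (above (P ⊔ P') k) ⊆ (hmFam k P0 U E).filter (fun W => P ≤ W) := by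
      intro W hW
      rw [mem_insert] at hW
      rw [mem_filter]
      simp only [hmFam, mem_filter, mem_univ, true_and]
      rcases hW with rfl | hW
      · exact ⟨⟨hW1, Or.inr hW1E⟩, hPW1⟩
      · obtain ⟨ha, hb⟩ := mem_above.1 hW
        refine ⟨⟨ha, Or.inl ⟨hP0L.trans hb, ?_⟩⟩, le_sup_left.trans hb⟩
        intro h0
        apply hLU
        rw [eq_bot_iff, ← h0]
        exact inf_le_inf_right _ hb
    have := card_le_card hsub
    rw [card_insert_of_notMem hW1not, hcard] at this
    unfold deg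
    omega

end family

end Q110.QS
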