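import Pool.Agent.Q110.QS.Count

/-!
# High degree points of an intersecting family of `k`-subspaces: the upper bound
-/

open Module Finset
open scoped Classical

namespace Q110.QS

universe u v

lemma br_mul (q m : ℕ) : (br q m : ℤ) * ((q : ℤ) - 1) = (q : ℤ) ^ m - 1 := by
  unfold br
  push_cast
  exact geom_sum_mul (q : ℤ) m

lemma br_pos {q m : ℕ} (hm : 1 ≤ m) : 1 ≤ br q m := by
  obtain ⟨m, rfl⟩ : ∃ m', m = m' + 1 := ⟨m - 1, by omega⟩
  unfold br
  rw [sum_range_succ']
  simp

lemma br_succ (q m : ℕ) : br q (m + 1) = q * br q m + 1 := by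
  unfold br
  rw [sum_range_succ', mul_sum]
  simp [pow_succ, mul_comm]

lemma br_mono {q a b : ℕ} (h : a ≤ b) : br q a ≤ br q b := by
  unfold br
  exact sum_le_sum_of_subset (range_mono h)

lemma br_ineq {q M k i n : ℕ} (hq : 2 ≤ q) (hi : i ≤ k) (hn : 2 * k + M ≤ n) :
    (q - 1) * q ^ M * br q k * br q (k - i) ≤ br q (n - i) := by
  have h1 := br_mul q k
  have h2 := br_mul q (k - i)
  have h3 := br_mul q (n - i)
  have hz : (q : ℤ) ^ M * (q : ℤ) ^ k * (q : ℤ) ^ (k - i) ≤ (q : ℤ) ^ (n - i) := by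
    rw [← pow_add, ← pow_add]
    exact pow_le_pow_right₀ (by exact_mod_cast (by omega : 1 ≤ q)) (by omega)
  have hx : (1 : ℤ) ≤ (q : ℤ) ^ k := one_le_pow₀ (by exact_mod_cast (by omega : 1 ≤ q))
  have hy : (1 : ℤ) ≤ (q : ℤ) ^ (k - i) := one_le_pow₀ (by exact_mod_cast (by omega : 1 ≤ q))
  have hc : (1 : ℤ) ≤ (q : ℤ) ^ M := one_le_pow₀ (by exact_mod_cast (by omega : 1 ≤ q))
  have hq1 : (0 : ℤ) < (q : ℤ) - 1 := by
    have : (2 : ℤ) ≤ q := by exact_mod_cast hq
    linarith
  have hgoal : (((q - 1) * q ^ M * br q k * br q (k - i) : ℕ) : ℤ) ≤ (br q (n - i) : ℤ) := by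
    push_cast [Nat.cast_sub (by omega : 1 ≤ q)]
    refine le_of_mul_le_mul_right ?_ hq1
    rw [h3]
    have e : ((q : ℤ) - 1) * (q : ℤ) ^ M * (br q k : ℤ) * (br q (k - i) : ℤ) * ((q : ℤ) - 1)
        = (q : ℤ) ^ M * ((br q k : ℤ) * ((q : ℤ) - 1)) * ((br q (k - i) : ℤ) * ((q : ℤ) - 1)) := by
      ring
    rw [e, h1, h2]
    nlinarith [mul_nonneg (sub_nonneg.2 hx) (sub_nonneg.2 hy), mul_nonneg (sub_nonneg.2 hc)
      (by linarith : (0 : ℤ) ≤ (q : ℤ) ^ k + (q : ℤ) ^ (k - i) - 1)]
  exact_mod_cast hgoal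

section numeric
variable (K : Type u) [Field K] [Finite K]

lemma two_le_card : 2 ≤ Nat.card K := Finite.one_lt_card

lemma gauss_step {M k i n : ℕ} (hi : i < k) (hn : 2 * k + M ≤ n) :
    ((Nat.card K - 1) * Nat.card K ^ M) * br (Nat.card K) k * gauss K (n - (i + 1)) (k - (i + 1))
      ≤ gauss K (n - i) (k - i) := by
  set q := Nat.card K with hqdef
  have hq : 2 ≤ q := two_le_card K
  have h := gauss_mul K (n - (i + 1)) (k - (i + 1))
  rw [show n - (i + 1) + 1 = n - i by omega, show k - (i + 1) + 1 = k - i by omega] at h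
  have h1 := br_ineq (M := M) hq hi.le hn
  have hp : 1 ≤ br q (k - i) := br_pos (by omega)
  refine le_of_mul_le_mul_right ?_ hp
  rw [h]
  calc ((q - 1) * q ^ M) * br q k * gauss K (n - (i + 1)) (k - (i + 1)) * br q (k - i)
      = ((q - 1) * q ^ M * br q k * br q (k - i)) * gauss K (n - (i + 1)) (k - (i + 1)) := by ring
    _ ≤ br q (n - i) * gauss K (n - (i + 1)) (k - (i + 1)) := Nat.mul_le_mul_right _ h1

lemma gauss_iter {M k n : ℕ} (hn : 2 * k + M ≤ n) (j : ℕ) (hj : j + 2 ≤ k) :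
    ((Nat.card K - 1) * Nat.card K ^ M * br (Nat.card K) k) ^ j *
      gauss K (n - (j + 2)) (k - (j + 2)) ≤ gauss K (n - 2) (k - 2) := by
  induction j with
  | zero => simp
  | succ j ih =>
    have h := ih (by omega)
    have h1 := gauss_step K (M := M) (k := k) (i := j + 2) (n := n) (by omega) hn
    refine le_trans ?_ h
    rw [pow_succ, mul_assoc]
    refine Nat.mul_le_mul_left _ ?_
    rw [show j + 1 + 2 = j + 2 + 1 by ring]
    exact h1

lemma br_le_pow {q c : ℕ} (hc : q ^ 2 + q + 1 ≤ c) (j : ℕ) : br q (j + 3) ≤ c ^ (j + 1) := by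
  induction j with
  | zero =>
    have : br q (0 + 3) = q ^ 2 + q + 1 := by
      simp [br, sum_range_succ]; ring
    rw [this]
    simpa using hc
  | succ j ih =>
    rw [show j + 1 + 3 = j + 3 + 1 by ring, br_succ]
    have h1 : 1 ≤ br q (j + 3) := br_pos (by omega)
    calc q * br q (j + 3) + 1 ≤ q * br q (j + 3) + br q (j + 3) := by omega
      _ = (q + 1) * br q (j + 3) := by ring
      _ ≤ c * c ^ (j + 1) := Nat.mul_le_mul (by nlinarith) ih
      _ = c ^ (j + 1 + 1) := by ring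

end numeric

section family
variable {K : Type u} [Field K] [Finite K] {V : Type v} [AddCommGroup V] [Module K V]
  [FiniteDimensional K V]

/-- the degree of a subspace -/
noncomputable def deg (F : Finset (Submodule K V)) (U : Submodule K V) : ℕ :=
  (F.filter (fun W => U ≤ W)).card

/-- transversal subspaces -/
def Trans (F : Finset (Submodule K V)) (T : Submodule K V) : Prop :=
  ∀ W ∈ F, W ⊓ T ≠ ⊥

omit [Finite K] [FiniteDimensional K V] in
lemma exists_point {W : Submodule K V} (h : W ≠ ⊥) : ∃ P : Submodule K V,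
    finrank K P = 1 ∧ P ≤ W := by
  obtain ⟨x, hx, hx0⟩ := Submodule.exists_mem_ne_zero_of_ne_bot h
  exact ⟨K ∙ x, finrank_span_singleton hx0, (Submodule.span_singleton_le_iff_mem x W).2 hx⟩

lemma cover {F : Finset (Submodule K V)} {U T : Submodule K V}
    (h : ∀ W ∈ F, U ≤ W → W ⊓ T ≠ ⊥) : deg F U ≤ ∑ P ∈ pts T, deg F (U ⊔ P) := by
  unfold deg
  refine le_trans (card_le_card (t := (pts T).biUnion
    (fun P => F.filter (fun W => U ⊔ P ≤ W))) ?_) card_biUnion_le
  intro W hW
  rw [mem_filter] at hW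
  obtain ⟨P, hP, hPW⟩ := exists_point (h W hW.1 hW.2)
  rw [mem_biUnion]
  exact ⟨P, mem_pts.2 ⟨hP, hPW.trans inf_le_right⟩,
    mem_filter.2 ⟨hW.1, sup_le hW.2 (hPW.trans inf_le_left)⟩⟩

omit [Finite K] in
lemma inf_point {U P : Submodule K V} (hP : finrank K P = 1) (h : ¬ P ≤ U) : U ⊓ P = ⊥ := by
  by_contra hne
  have h1 : 1 ≤ finrank K (U ⊓ P : Submodule K V) := by
    rw [Nat.one_le_iff_ne_zero]
    intro h0
    exact hne (Submodule.finrank_eq_zero.1 h0)
  have h2 : U ⊓ P = P := Submodule.eq_of_le_of_finrank_le inf_le_right (by omega)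
  exact h (inf_eq_right.1 h2)

omit [Finite K] in
lemma finrank_sup_point {U P : Submodule K V} (hP : finrank K P = 1) (h : ¬ P ≤ U) :
    finrank K (U ⊔ P : Submodule K V) = finrank K U + 1 := by
  have h1 := Submodule.finrank_sup_add_finrank_inf_eq U P
  rw [inf_point hP h, finrank_bot, hP] at h1
  omega

lemma deg_le_above {F : Finset (Submodule K V)} {k : ℕ} (hF : ∀ W ∈ F, finrank K W = k)
    {U : Submodule K V} (hU : finrank K U ≤ k) :
    deg F U ≤ gauss K (finrank K V - finrank K U) (k - finrank K U) := by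
  rw [← card_above U hU]
  refine card_le_card ?_
  intro W hW
  rw [mem_filter] at hW
  exact mem_above.2 ⟨hF W hW.1, hW.2⟩

/-- a `d`-subspace with two points -/
lemma Dbound {F : Finset (Submodule K V)} {k t : ℕ} (hF : ∀ W ∈ F, finrank K W = k)
    (hI : ∀ W ∈ F, ∀ W' ∈ F, W ⊓ W' ≠ ⊥) (hmin : ∀ T, Trans F T → t ≤ finrank K T)
    (htk : t ≤ k) (j : ℕ) (hj : j ≤ t) (U : Submodule K V) (hU : finrank K U = t - j) :
    deg F U ≤ br (Nat.card K) k ^ j * gauss K (finrank K V - t) (k - t) := by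
  induction j generalizing U with
  | zero =>
    rw [pow_zero, one_mul]
    have := deg_le_above hF (U := U) (by omega)
    rwa [hU, Nat.sub_zero] at this
  | succ j ih =>
    have hnt : ¬ Trans F U := by
      intro h
      have := hmin U h
      omega
    unfold Trans at hnt
    push Not at hnt
    obtain ⟨W0, hW0, hWU⟩ := hnt
    refine (cover (F := F) (U := U) (T := W0) (fun W hW _ => hI W hW W0 hW0)).trans ?_
    have hb : ∀ P ∈ pts W0, deg F (U ⊔ P)
        ≤ br (Nat.card K) k ^ j * gauss K (finrank K V - t) (k - t) := by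
      intro P hP
      obtain ⟨hP1, hP2⟩ := mem_pts.1 hP
      have hn : ¬ P ≤ U := by
        intro hPU
        have : P ≤ ⊥ := by
          rw [← hWU]; exact le_inf hP2 hPU
        rw [le_bot_iff] at this
        rw [this, finrank_bot] at hP1
        omega
      apply ih (by omega)
      rw [finrank_sup_point hP1 hn, hU]
      omega
    refine (sum_le_card_nsmul _ _ _ hb).trans ?_
    rw [card_pts, hF W0 hW0, smul_eq_mul, pow_succ]
    exact le_of_eq (by ring)

end family

end Q110.QS
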